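import Mathlib
import Pool.Agent.V1181.LogDelta

/-!
# Negative solutions of a planar equation with a point source need not be radial
-/

set_option autoImplicit false

namespace Pool.Agent.Results.MP_ad2fa1_an.NonRadial

open Pool.Agent.V1181
open Real Set Filter MeasureTheory Topology InnerProductSpace Laplacian

/-- The hypotheses (H1)-(H8) on `f` and `g`. -/
structure Hyp (f g : ℝ → ℝ) : Prop where
  h1_f : ContDiff ℝ 1 f
  h1_g : ContDiff ℝ 1 g
  h1_int : IntegrableOn (fun t => |t * f t|) (Iic 0)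
  h1_bdd : ∃ C, ∀ u, |g u| + |deriv g u| ≤ C
  h2_f : ∀ t, 0 < f t
  h2_lim : Tendsto f atTop atTop
  h2_zero : g 0 = 0
  h2_g : ∀ u, u < 0 → 0 < g u
  h3 : ∀ t, 0 ≤ deriv f t
  h4 : ∃ M : ℝ, 0 < M ∧ (∀ u, u < -M → 0 < deriv g u) ∧
    IntegrableOn (fun t => f t * g (-(M * t))) (Ioi 0)
  h5 : ∃ M₀ : ℝ, IsGLB {M : ℝ | 0 < M ∧ IntegrableOn (fun t => f t * g (-(M * t))) (Ioi 0)} M₀ ∧
    ¬ IntegrableOn (fun t => f t * g (-(M₀ * t))) (Ioi 0)
  h5' : ∀ c, 0 < c → ∃ δ, 0 < δ ∧ ∀ t, 0 < t → δ ≤ f (t - c) / f t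
  h6_int : ∀ u, IntegrableOn g (Iic u)
  h67 : ∃ f₁ g₁ : ℝ, Tendsto (fun t => deriv f t / f t) atTop (𝓝 f₁) ∧
    Tendsto (fun u => (∫ v in Iic u, g v) / g u) atBot (𝓝 g₁) ∧
    (∀ t, f₁ ≤ deriv f t / f t) ∧ (∀ u, u < 0 → g₁ ≤ (∫ v in Iic u, g v) / g u)
  h8 : ∃ δ, 0 < δ ∧ ∀ u, -δ ≤ u → u ≤ 0 → deriv g u ≤ 0

/-- `u` solves `Δ u + p(|x|) q(e ^ u) = 4 π N δ₀` in the sense of distributions on the plane. -/
structure IsSol (N : ℝ) (p q : ℝ → ℝ) (u : ℂ → ℝ) : Prop where
  loc : LocallyIntegrable u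
  smooth : ContDiffOn ℝ (⊤ : ℕ∞) u {0}ᶜ
  loc_rhs : LocallyIntegrable fun x => p ‖x‖ * q (exp (u x))
  eq : ∀ φ : ℂ → ℝ, ContDiff ℝ (⊤ : ℕ∞) φ → HasCompactSupport φ →
    (∫ x, u x * Δ φ x) + (∫ x, p ‖x‖ * q (exp (u x)) * φ x) = 4 * π * N * φ 0

/-! ### The nonlinearity -/

/-- `w u = max (u + 1) 0`. -/
noncomputable def w (u : ℝ) : ℝ := max (u + 1) 0

/-- The nonlinearity `g`, equal to `exp` on `(-∞, -1]`. -/
noncomputable def g (u : ℝ) : ℝ := exp (u - w u ^ 2 / 2) * (1 - w u ^ 2)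

/-- The derivative of `g`. -/
noncomputable def g' (u : ℝ) : ℝ :=
  exp (u - w u ^ 2 / 2) * ((1 - w u) * (1 - w u ^ 2) - 2 * w u)

theorem continuous_w : Continuous w := by
  unfold w
  fun_prop

theorem w_nonneg (u : ℝ) : 0 ≤ w u := le_max_right _ _

theorem w_of_le {u : ℝ} (h : u ≤ -1) : w u = 0 := max_eq_right (by linarith)

theorem w_of_ge {u : ℝ} (h : -1 ≤ u) : w u = u + 1 := max_eq_left (by linarith)

theorem hasDerivAt_w2 (u : ℝ) : HasDerivAt (fun u => w u ^ 2) (2 * w u) u := by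
  rcases lt_trichotomy u (-1) with h | h | h
  · have hev : (fun u => w u ^ 2) =ᶠ[𝓝 u] fun _ => 0 := by
      filter_upwards [Iio_mem_nhds h] with v hv
      rw [w_of_le (le_of_lt hv)]
      norm_num
    rw [w_of_le h.le, mul_zero]
    exact (hasDerivAt_const u (0 : ℝ)).congr_of_eventuallyEq hev
  · subst h
    rw [w_of_le (le_refl _), mul_zero]
    rw [hasDerivAt_iff_isLittleO, Asymptotics.isLittleO_iff]
    intro c hc
    filter_upwards [Metric.ball_mem_nhds (-1 : ℝ) hc] with v hv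
    rw [w_of_le (le_refl _)]
    simp only [smul_zero, sub_zero, ne_eq, OfNat.ofNat_ne_zero, not_false_eq_true, zero_pow,
      Real.norm_eq_abs]
    rw [Metric.mem_ball, Real.dist_eq] at hv
    have h1 : w v ≤ |v - -1| := by
      unfold w
      refine max_le ?_ (abs_nonneg _)
      have := le_abs_self (v - -1)
      linarith
    rw [abs_of_nonneg (by positivity), pow_two]
    have := w_nonneg v
    exact mul_le_mul (h1.trans hv.le) h1 this hc.le
  · have hev : (fun u => w u ^ 2) =ᶠ[𝓝 u] fun u => (u + 1) ^ 2 := by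
      filter_upwards [Ioi_mem_nhds h] with v hv
      rw [w_of_ge (le_of_lt hv)]
    rw [w_of_ge h.le]
    have h1 : HasDerivAt (fun u : ℝ => (u + 1) ^ 2) (2 * (u + 1)) u := by
      refine (((hasDerivAt_id u).add_const 1).pow 2).congr_deriv ?_
      simp
    exact h1.congr_of_eventuallyEq hev

theorem hasDerivAt_g (u : ℝ) : HasDerivAt g (g' u) u := by
  have h1 := (((hasDerivAt_id u).sub ((hasDerivAt_w2 u).div_const 2)).exp).mul
    ((hasDerivAt_w2 u).const_sub 1)
  refine HasDerivAt.congr_deriv (f := g) h1 ?_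
  simp only [id, g', Pi.sub_apply]
  ring

theorem continuous_g' : Continuous g' := by
  have := continuous_w
  unfold g'
  fun_prop

theorem deriv_g : deriv g = g' := funext fun u => (hasDerivAt_g u).deriv

theorem contDiff_g : ContDiff ℝ 1 g := by
  rw [contDiff_one_iff_deriv]
  exact ⟨fun u => (hasDerivAt_g u).differentiableAt, by rw [deriv_g]; exact continuous_g'⟩

theorem g_of_le {u : ℝ} (h : u ≤ -1) : g u = exp u := by
  unfold g
  rw [w_of_le h]
  simp

theorem g'_of_le {u : ℝ} (h : u ≤ -1) : g' u = exp u := by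
  unfold g'
  rw [w_of_le h]
  simp

theorem g_nonneg {u : ℝ} (h : u ≤ 0) : 0 ≤ g u := by
  unfold g
  have h1 : w u ≤ 1 := max_le (by linarith) (by norm_num)
  have := w_nonneg u
  have h2 : 0 ≤ 1 - w u ^ 2 := by nlinarith
  positivity

theorem g_pos {u : ℝ} (h : u < 0) : 0 < g u := by
  unfold g
  have h1 : w u < 1 := max_lt (by linarith) (by norm_num)
  have := w_nonneg u
  have h2 : 0 < 1 - w u ^ 2 := by nlinarith
  positivity

theorem g_le_exp {u : ℝ} (h : u ≤ 0) : g u ≤ exp u := by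
  unfold g
  have h1 : w u ≤ 1 := max_le (by linarith) (by norm_num)
  have := w_nonneg u
  have h2 : 0 ≤ 1 - w u ^ 2 := by nlinarith
  have h3 : exp (u - w u ^ 2 / 2) ≤ exp u := exp_le_exp.2 (by nlinarith [sq_nonneg (w u)])
  have h4 : 1 - w u ^ 2 ≤ 1 := by nlinarith [sq_nonneg (w u)]
  calc exp (u - w u ^ 2 / 2) * (1 - w u ^ 2) ≤ exp u * 1 :=
        mul_le_mul h3 h4 h2 (exp_pos _).le
    _ = exp u := mul_one _

theorem g'_le_g {u : ℝ} (h : u ≤ 0) : g' u ≤ g u := by
  unfold g g'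
  have h1 : w u ≤ 1 := max_le (by linarith) (by norm_num)
  have h0 := w_nonneg u
  refine mul_le_mul_of_nonneg_left ?_ (exp_pos _).le
  have h2 : 0 ≤ 1 - w u ^ 2 := by nlinarith
  nlinarith [mul_nonneg h0 h2]

theorem g_bdd (u : ℝ) : |g u| + |g' u| ≤ 200 := by
  rcases le_total u (-1) with h | h
  · rw [g_of_le h, g'_of_le h, abs_of_pos (exp_pos _)]
    have : exp u ≤ 1 := by
      rw [← exp_zero]
      exact exp_le_exp.2 (by linarith)
    linarith
  · have hw := w_of_ge h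
    have h0 := w_nonneg u
    set t := w u with ht
    have hE : exp (u - t ^ 2 / 2) * ((t - 1) ^ 2 / 8 + 7 / 8) ^ 4 ≤ 1 := by
      have h1 : (t - 1) ^ 2 / 8 + 7 / 8 ≤ exp ((t ^ 2 / 2 - t) / 4) := by
        have := add_one_le_exp ((t ^ 2 / 2 - t) / 4)
        nlinarith
      have h2 : ((t - 1) ^ 2 / 8 + 7 / 8) ^ 4 ≤ exp (t ^ 2 / 2 - t) := by
        have h3 := pow_le_pow_left₀ (by positivity) h1 4
        rw [← exp_nat_mul] at h3
        refine h3.trans (le_of_eq ?_)
        congr 1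
        push_cast
        ring
      have h4 : exp (u - t ^ 2 / 2) * exp (t ^ 2 / 2 - t) = exp (-1) := by
        rw [← exp_add]
        congr 1
        rw [hw]
        ring
      calc exp (u - t ^ 2 / 2) * ((t - 1) ^ 2 / 8 + 7 / 8) ^ 4
          ≤ exp (u - t ^ 2 / 2) * exp (t ^ 2 / 2 - t) :=
            mul_le_mul_of_nonneg_left h2 (exp_pos _).le
        _ = exp (-1) := h4
        _ ≤ 1 := by
            rw [← exp_zero]
            exact exp_le_exp.2 (by norm_num)
    have hX : 1 + t ≤ 4 * ((t - 1) ^ 2 / 8 + 7 / 8) := by nlinarith [sq_nonneg (t - 2)]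
    set X := (t - 1) ^ 2 / 8 + 7 / 8 with hXd
    have hX7 : 7 / 8 ≤ X := by
      rw [hXd]
      nlinarith [sq_nonneg (t - 1)]
    have hXpos : 0 < X := by linarith
    have hpoly : (1 + t) ^ 3 ≤ 75 * X ^ 4 := by
      have h1 : (1 + t) ^ 3 ≤ (4 * X) ^ 3 := pow_le_pow_left₀ (by linarith) hX 3
      have h2 : X ^ 3 * (7 / 8) ≤ X ^ 3 * X := mul_le_mul_of_nonneg_left hX7 (by positivity)
      nlinarith
    have hg : |g u| ≤ exp (u - t ^ 2 / 2) * (1 + t) ^ 3 := by
      unfold g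
      rw [abs_mul, abs_of_pos (exp_pos _), ← ht]
      refine mul_le_mul_of_nonneg_left ?_ (exp_pos _).le
      rw [abs_le]
      constructor <;> nlinarith [mul_nonneg h0 h0, mul_nonneg h0 (mul_nonneg h0 h0)]
    have hg' : |g' u| ≤ exp (u - t ^ 2 / 2) * (1 + t) ^ 3 := by
      unfold g'
      rw [abs_mul, abs_of_pos (exp_pos _), ← ht]
      refine mul_le_mul_of_nonneg_left ?_ (exp_pos _).le
      rw [abs_le]
      constructor <;> nlinarith [mul_nonneg h0 h0, mul_nonneg h0 (mul_nonneg h0 h0)]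
    have hfin : exp (u - t ^ 2 / 2) * (1 + t) ^ 3 ≤ 75 := by
      calc exp (u - t ^ 2 / 2) * (1 + t) ^ 3 ≤ exp (u - t ^ 2 / 2) * (75 * X ^ 4) :=
            mul_le_mul_of_nonneg_left hpoly (exp_pos _).le
        _ = 75 * (exp (u - t ^ 2 / 2) * X ^ 4) := by ring
        _ ≤ 75 * 1 := mul_le_mul_of_nonneg_left hE (by norm_num)
        _ = 75 := by norm_num
    linarith

theorem integrableOn_g (u : ℝ) : IntegrableOn g (Iic u) := by
  have hgc : Continuous g := contDiff_g.continuous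
  have h1 : IntegrableOn g (Iic (-1)) := by
    refine (integrableOn_exp_Iic (-1)).congr_fun (fun v hv => ?_) measurableSet_Iic
    exact (g_of_le hv).symm
  have h2 : IntegrableOn g (Icc (-1) (max u 0)) := hgc.integrableOn_Icc
  refine (h1.union h2).mono_set fun v hv => ?_
  have hv' : v ≤ u := hv
  rcases le_total v (-1) with h | h
  · exact Or.inl h
  · exact Or.inr ⟨h, hv'.trans (le_max_left _ _)⟩

theorem g_le_integral {u : ℝ} (hu : u < 0) : g u ≤ ∫ v in Iic u, g v := by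
  rcases le_total u (-1) with h | h
  · rw [g_of_le h, ← integral_exp_Iic]
    refine le_of_eq (setIntegral_congr_fun measurableSet_Iic fun v hv => ?_)
    exact (g_of_le (le_trans hv h)).symm
  · have h1 : ∫ v in Iic (-1 : ℝ), g v = exp (-1) := by
      rw [← integral_exp_Iic]
      exact setIntegral_congr_fun measurableSet_Iic fun v hv => g_of_le hv
    have h2 := intervalIntegral.integral_Iic_sub_Iic (integrableOn_g (-1)) (integrableOn_g u)
    have h3 : ∫ v in (-1)..u, g' v = g u - g (-1) := by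
      refine intervalIntegral.integral_eq_sub_of_hasDerivAt (fun v _ => hasDerivAt_g v) ?_
      exact continuous_g'.intervalIntegrable _ _
    have h4 : ∫ v in (-1)..u, g' v ≤ ∫ v in (-1)..u, g v := by
      refine intervalIntegral.integral_mono_on h (continuous_g'.intervalIntegrable _ _)
        (contDiff_g.continuous.intervalIntegrable _ _) fun v hv => ?_
      exact g'_le_g (hv.2.trans hu.le)
    rw [g_of_le (le_refl _)] at h3
    linarith

theorem integrable_iff {M : ℝ} (hM : 0 < M) :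
    IntegrableOn (fun t => exp (2 * t) * g (-(M * t))) (Ioi 0) ↔ 2 < M := by
  constructor
  · intro h
    by_contra hle
    push Not at hle
    have h1 : IntegrableOn (fun _ : ℝ => (1 : ℝ)) (Ioi (1 / M)) := by
      refine Integrable.mono' (h.mono_set (Ioi_subset_Ioi (by positivity)))
        aestronglyMeasurable_const ?_
      refine (ae_restrict_mem measurableSet_Ioi).mono fun t ht => ?_
      have ht' : 1 / M < t := ht
      have h2 : 1 < M * t := by
        rwa [div_lt_iff₀ hM, mul_comm] at ht'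
      rw [g_of_le (by linarith), ← exp_add]
      have ht0 : 0 < t := lt_trans (by positivity) ht'
      have : 0 ≤ 2 * t + -(M * t) := by nlinarith
      simpa using this
    simp [integrableOn_const_iff] at h1
  · intro h
    have h1 : IntegrableOn (fun t : ℝ => exp ((2 - M) * t)) (Ioi 0) :=
      integrableOn_exp_mul_Ioi (by linarith) 0
    refine Integrable.mono' h1 ?_ ?_
    · have := contDiff_g.continuous
      exact Continuous.aestronglyMeasurable (by fun_prop)
    · refine (ae_restrict_mem measurableSet_Ioi).mono fun t ht => ?_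
      have ht' : (0 : ℝ) < t := ht
      have h2 : -(M * t) ≤ 0 := by nlinarith
      rw [norm_mul, Real.norm_eq_abs, Real.norm_eq_abs, abs_of_pos (exp_pos _),
        abs_of_nonneg (g_nonneg h2)]
      calc exp (2 * t) * g (-(M * t)) ≤ exp (2 * t) * exp (-(M * t)) :=
            mul_le_mul_of_nonneg_left (g_le_exp h2) (exp_pos _).le
        _ = exp ((2 - M) * t) := by
            rw [← exp_add]
            congr 1
            ring

theorem hasDerivAt_f (t : ℝ) : HasDerivAt (fun t : ℝ => exp (2 * t)) (2 * exp (2 * t)) t := by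
  refine (((hasDerivAt_id t).const_mul 2).exp).congr_deriv ?_
  simp only [id]
  ring

theorem hyp : Hyp (fun t => exp (2 * t)) g where
  h1_f := by fun_prop
  h1_g := contDiff_g
  h1_int := by
    refine Integrable.mono' (integrableOn_exp_Iic 0) (by fun_prop) ?_
    refine (ae_restrict_mem measurableSet_Iic).mono fun t ht => ?_
    have ht' : t ≤ 0 := ht
    rw [Real.norm_eq_abs, abs_abs, abs_mul, abs_of_nonpos ht', abs_of_pos (exp_pos _)]
    have h1 : -t ≤ exp (-t) := by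
      have := add_one_le_exp (-t)
      linarith
    calc -t * exp (2 * t) ≤ exp (-t) * exp (2 * t) :=
          mul_le_mul_of_nonneg_right h1 (exp_pos _).le
      _ = exp t := by
          rw [← exp_add]
          congr 1
          ring
  h1_bdd := ⟨200, fun u => by rw [deriv_g]; exact g_bdd u⟩
  h2_f := fun t => exp_pos _
  h2_lim := tendsto_exp_atTop.comp (tendsto_id.const_mul_atTop (by norm_num))
  h2_zero := by
    unfold g
    rw [w_of_ge (by norm_num)]
    norm_num
  h2_g := fun u hu => g_pos hu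
  h3 := fun t => by
    rw [(hasDerivAt_f t).deriv]
    positivity
  h4 := ⟨3, by norm_num, fun u hu => by
    rw [deriv_g, g'_of_le (by linarith)]
    exact exp_pos _, (integrable_iff (by norm_num)).2 (by norm_num)⟩
  h5 := by
    refine ⟨2, ⟨?_, ?_⟩, ?_⟩
    · rintro M ⟨hM, hint⟩
      exact ((integrable_iff hM).1 hint).le
    · intro b hb
      by_contra hlt
      push Not at hlt
      have hpos : 0 < (2 + b) / 2 := by linarith
      have h1 := hb (show (2 + b) / 2 ∈ {M : ℝ | 0 < M ∧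
        IntegrableOn (fun t => exp (2 * t) * g (-(M * t))) (Ioi 0)} from
        ⟨hpos, (integrable_iff hpos).2 (by linarith)⟩)
      linarith
    · rw [integrable_iff (by norm_num)]
      exact lt_irrefl _
  h5' := fun c _ => ⟨exp (-(2 * c)), exp_pos _, fun t _ => by
    rw [← exp_sub]
    refine le_of_eq ?_
    congr 1
    ring⟩
  h6_int := integrableOn_g
  h67 := by
    have hf : ∀ t : ℝ, deriv (fun t : ℝ => exp (2 * t)) t / exp (2 * t) = 2 := fun t => by
      rw [(hasDerivAt_f t).deriv]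
      field_simp
    refine ⟨2, 1, ?_, ?_, fun t => (hf t).ge, fun u hu => ?_⟩
    · simp only [hf]
      exact tendsto_const_nhds
    · refine Tendsto.congr' ?_ tendsto_const_nhds
      filter_upwards [Iic_mem_atBot (-1 : ℝ)] with u hu
      have hu' : u ≤ -1 := hu
      have h1 : ∫ v in Iic u, g v = exp u := by
        rw [← integral_exp_Iic]
        exact setIntegral_congr_fun measurableSet_Iic fun v hv => g_of_le (le_trans hv hu')
      rw [h1, g_of_le hu', div_self (exp_pos _).ne']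
    · rw [le_div_iff₀ (g_pos hu), one_mul]
      exact g_le_integral hu
  h8 := ⟨1 / 2, by norm_num, fun u h1 h2 => by
    rw [deriv_g]
    unfold g'
    rw [w_of_ge (by linarith)]
    refine mul_nonpos_of_nonneg_of_nonpos (exp_pos _).le ?_
    nlinarith [mul_nonneg (show 0 ≤ u + 1 / 2 by linarith) (show 0 ≤ -u by linarith)]⟩

/-! ### The solution -/

/-- `h z = z ^ (N + 1) - 1`. -/
noncomputable def h (N : ℕ) (z : ℂ) : ℂ := z ^ (N + 1) - 1

/-- The smooth part of the solution. -/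
noncomputable def v (N : ℕ) (κ : ℝ) (z : ℂ) : ℝ :=
  log (8 * (N + 1) ^ 2 * κ) - 2 * log (1 + κ * ‖h N z‖ ^ 2)

/-- The solution. -/
noncomputable def sol (N : ℕ) (κ : ℝ) (z : ℂ) : ℝ := N * log (‖z‖ ^ 2) + v N κ z

theorem hasDerivAt_h (N : ℕ) (y e : ℂ) :
    HasDerivAt (fun t : ℝ => h N (y + t • e)) ((N + 1) * y ^ N * e) 0 := by
  have h1 : HasDerivAt (fun t : ℝ => y + t • e) e 0 := by
    simpa using ((hasDerivAt_id (0 : ℝ)).smul_const e).const_add y
  have h2 := (h1.pow (N + 1)).sub_const 1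
  refine HasDerivAt.congr_deriv (f := fun t : ℝ => h N (y + t • e)) h2 ?_
  simp

theorem hasDerivAt_dh (N : ℕ) (y e : ℂ) :
    HasDerivAt (fun t : ℝ => (N + 1) * (y + t • e) ^ N * e)
      ((N + 1) * (N * y ^ (N - 1) * e) * e) 0 := by
  have h1 : HasDerivAt (fun t : ℝ => y + t • e) e 0 := by
    simpa using ((hasDerivAt_id (0 : ℝ)).smul_const e).const_add y
  have h2 := ((h1.pow N).const_mul ((N : ℂ) + 1)).mul_const e
  refine h2.congr_deriv ?_
  simp

theorem contDiff_P (N : ℕ) (κ : ℝ) : ContDiff ℝ (⊤ : ℕ∞) fun z => 1 + κ * ‖h N z‖ ^ 2 := by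
  unfold h
  refine contDiff_const.add (contDiff_const.mul (ContDiff.norm_sq ℝ ?_))
  fun_prop

theorem P_pos (N : ℕ) {κ : ℝ} (hκ : 0 < κ) (z : ℂ) : 0 < 1 + κ * ‖h N z‖ ^ 2 := by positivity

theorem contDiff_v (N : ℕ) {κ : ℝ} (hκ : 0 < κ) : ContDiff ℝ (⊤ : ℕ∞) (v N κ) := by
  unfold v
  refine contDiff_const.sub (contDiff_const.mul ?_)
  exact (contDiff_P N κ).log fun z => (P_pos N hκ z).ne'

theorem lap_v (N : ℕ) {κ : ℝ} (hκ : 0 < κ) (x : ℂ) :
    Δ (v N κ) x = - (8 * (N + 1) ^ 2 * κ * (‖x‖ ^ 2) ^ N / (1 + κ * ‖h N x‖ ^ 2) ^ 2) := by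
  have hP := fun z => (P_pos N hκ z).ne'
  have hd1 : ∀ y e : ℂ, HasDerivAt (fun t : ℝ => 1 + κ * ‖h N (y + t • e)‖ ^ 2)
      (κ * (2 * inner ℝ (h N y) ((N + 1) * y ^ N * e))) 0 := by
    intro y e
    have h1 := (((hasDerivAt_h N y e).norm_sq).const_mul κ).const_add 1
    simpa using h1
  have hg : ∀ i : Fin 2, ∀ᶠ y in 𝓝 x,
      HasDerivAt (fun t : ℝ => v N κ (y + t • Complex.orthonormalBasisOneI i))
        ((fun (i : Fin 2) (y : ℂ) => -2 * (κ * (2 * inner ℝ (h N y)
          ((N + 1) * y ^ N * Complex.orthonormalBasisOneI i)) / (1 + κ * ‖h N y‖ ^ 2))) i y) 0 := by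
    intro i
    refine Eventually.of_forall fun y => ?_
    have h1 := hd1 y (Complex.orthonormalBasisOneI i)
    have h2 := ((h1.log (by simpa using hP y)).const_mul 2).const_sub
      (log (8 * (N + 1) ^ 2 * κ))
    refine HasDerivAt.congr_deriv (f := fun t : ℝ => v N κ (y + t • Complex.orthonormalBasisOneI i))
      h2 ?_
    simp
  have hh : ∀ i : Fin 2, HasDerivAt (fun t : ℝ => (fun (i : Fin 2) (y : ℂ) =>
      -2 * (κ * (2 * inner ℝ (h N y)
          ((N + 1) * y ^ N * Complex.orthonormalBasisOneI i)) / (1 + κ * ‖h N y‖ ^ 2))) i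
          (x + t • Complex.orthonormalBasisOneI i))
      (-2 * ((κ * (2 * (inner ℝ (h N x) ((N + 1) * (N * x ^ (N - 1) *
        Complex.orthonormalBasisOneI i) * Complex.orthonormalBasisOneI i) +
        inner ℝ ((N + 1) * x ^ N * Complex.orthonormalBasisOneI i)
          ((N + 1) * x ^ N * Complex.orthonormalBasisOneI i))) * (1 + κ * ‖h N x‖ ^ 2)
        - κ * (2 * inner ℝ (h N x) ((N + 1) * x ^ N * Complex.orthonormalBasisOneI i)) *
          (κ * (2 * inner ℝ (h N x) ((N + 1) * x ^ N * Complex.orthonormalBasisOneI i))))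
        / (1 + κ * ‖h N x‖ ^ 2) ^ 2)) 0 := by
    intro i
    have h1 := hd1 x (Complex.orthonormalBasisOneI i)
    have h3 := (hasDerivAt_h N x (Complex.orthonormalBasisOneI i)).inner ℝ
      (hasDerivAt_dh N x (Complex.orthonormalBasisOneI i))
    have h4 := (((h3.const_mul 2).const_mul κ).div h1 (by simpa using hP x)).const_mul (-2)
    refine HasDerivAt.congr_deriv h4 ?_
    simp
  rw [lap_eq Complex.orthonormalBasisOneI ((contDiff_infty.1 (contDiff_v N hκ) 2).contDiffAt)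
    _ _ hg hh, Fin.sum_univ_two]
  have e0 : (Complex.orthonormalBasisOneI 0 : ℂ) = 1 := by simp
  have e1 : (Complex.orthonormalBasisOneI 1 : ℂ) = Complex.I := by simp
  rw [e0, e1]
  generalize hH : h N x = H
  have hPH : 1 + κ * ‖H‖ ^ 2 ≠ 0 := by
    rw [← hH]
    exact hP x
  have hx : ‖x‖ ^ 2 = x.re ^ 2 + x.im ^ 2 := by
    rw [Complex.sq_norm, Complex.normSq_apply]
    ring
  have hk : ∃ a b : ℝ, x ^ N = ⟨a, b⟩ ∧ (‖x‖ ^ 2) ^ N = a ^ 2 + b ^ 2 := by
    refine ⟨(x ^ N).re, (x ^ N).im, rfl, ?_⟩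
    rw [← pow_mul, mul_comm, pow_mul, ← norm_pow, Complex.sq_norm, Complex.normSq_apply]
    ring
  obtain ⟨a, b, hab, hab2⟩ := hk
  obtain ⟨c, d, hcd⟩ : ∃ c d : ℝ, (N : ℂ) * x ^ (N - 1) = ⟨c, d⟩ := ⟨_, _, rfl⟩
  rw [hab, hab2, hcd]
  have hn : ‖H‖ ^ 2 = H.re ^ 2 + H.im ^ 2 := by
    rw [Complex.sq_norm, Complex.normSq_apply]
    ring
  rw [hn] at hPH ⊢
  simp only [Complex.inner, Complex.mul_re, Complex.mul_im, Complex.add_re, Complex.add_im,
    Complex.natCast_re, Complex.natCast_im, Complex.one_re, Complex.one_im, Complex.I_re,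
    Complex.I_im, Complex.conj_re, Complex.conj_im]
  field_simp
  ring

theorem exists_kappa (N : ℕ) : ∃ κ : ℝ, 0 < κ ∧
    ∀ z : ℂ, 8 * (N + 1) ^ 2 * κ * (‖z‖ ^ 2) ^ N ≤ 1 / 4 * (1 + κ * ‖h N z‖ ^ 2) ^ 2 := by
  set δ : ℝ := 1 / (100 * (N + 1) ^ 2) with hδ
  have hδ0 : 0 < δ := by positivity
  have hN1 : (1 : ℝ) ≤ (N + 1) ^ 2 := by
    have : (0 : ℝ) ≤ N := Nat.cast_nonneg N
    nlinarith
  have hδ1 : δ ≤ 1 := by
    rw [hδ, div_le_one (by positivity)]
    linarith
  have hδN : (N + 1 : ℝ) ^ 2 * δ = 1 / 100 := by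
    rw [hδ]
    field_simp
  refine ⟨δ ^ (N + 1), by positivity, fun z => ?_⟩
  set κ := δ ^ (N + 1) with hκ
  have hκ0 : 0 < κ := by positivity
  have hκ1 : κ ≤ 1 := pow_le_one₀ hδ0.le hδ1
  set s := ‖z‖ ^ 2 with hs
  have hs0 : 0 ≤ s := by positivity
  have h1 : κ * s ^ N ≤ δ * (κ * s ^ (N + 1)) + δ := by
    rcases le_total (δ * s) 1 with h | h
    · have h2 : (δ * s) ^ N ≤ 1 := pow_le_one₀ (by positivity) h
      have h3 : κ * s ^ N = δ * (δ * s) ^ N := by
        rw [hκ, mul_pow]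
        ring
      have h4 : 0 ≤ δ * (κ * s ^ (N + 1)) := by positivity
      rw [h3]
      nlinarith
    · have h2 : δ * (κ * s ^ (N + 1)) = (κ * s ^ N) * (δ * s) := by ring
      rw [h2]
      have h3 : 0 ≤ κ * s ^ N := by positivity
      nlinarith
  have h2 : s ^ (N + 1) ≤ 2 * ‖h N z‖ ^ 2 + 2 := by
    have h3 : ‖z‖ ^ (N + 1) ≤ ‖h N z‖ + 1 := by
      rw [← norm_pow]
      have h4 : z ^ (N + 1) = h N z + 1 := by
        unfold h
        ring
      rw [h4]
      refine (norm_add_le _ _).trans ?_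
      simp
    have h4 : s ^ (N + 1) = (‖z‖ ^ (N + 1)) ^ 2 := by
      rw [hs, ← pow_mul, ← pow_mul, mul_comm]
    rw [h4]
    have h5 := pow_le_pow_left₀ (by positivity) h3 2
    nlinarith [sq_nonneg (‖h N z‖ - 1)]
  set Q := ‖h N z‖ ^ 2 with hQ
  have hQ0 : 0 ≤ Q := by positivity
  have h3 : κ * s ^ N ≤ 3 * δ * (1 + κ * Q) := by
    have h4 : κ * s ^ (N + 1) ≤ κ * (2 * Q + 2) := mul_le_mul_of_nonneg_left h2 hκ0.le
    have h5 : δ * (κ * s ^ (N + 1)) ≤ δ * (κ * (2 * Q + 2)) := mul_le_mul_of_nonneg_left h4 hδ0.le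
    have h6 : 0 ≤ δ * (κ * Q) := by positivity
    have h7 : δ * κ ≤ δ := by nlinarith
    nlinarith
  have h4 : (1 : ℝ) ≤ 1 + κ * Q := by
    have : 0 ≤ κ * Q := by positivity
    linarith
  calc 8 * (N + 1) ^ 2 * κ * s ^ N = 8 * (N + 1) ^ 2 * (κ * s ^ N) := by ring
    _ ≤ 8 * (N + 1) ^ 2 * (3 * δ * (1 + κ * Q)) :=
        mul_le_mul_of_nonneg_left h3 (by positivity)
    _ = 24 * ((N + 1) ^ 2 * δ) * (1 + κ * Q) := by ring
    _ = 24 / 100 * (1 + κ * Q) := by
        rw [hδN]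
        ring
    _ ≤ 1 / 4 * (1 + κ * Q) ^ 2 := by nlinarith

theorem exp_sol (N : ℕ) {κ : ℝ} (hκ : 0 < κ) {z : ℂ} (hz : z ≠ 0) :
    exp (sol N κ z) = 8 * (N + 1) ^ 2 * κ * (‖z‖ ^ 2) ^ N / (1 + κ * ‖h N z‖ ^ 2) ^ 2 := by
  have h1 : 0 < ‖z‖ ^ 2 := by positivity
  have h2 := P_pos N hκ z
  unfold sol v
  have h3 : (N : ℝ) * log (‖z‖ ^ 2) + (log (8 * (N + 1) ^ 2 * κ) - 2 * log (1 + κ * ‖h N z‖ ^ 2))
      = log (8 * (N + 1) ^ 2 * κ * (‖z‖ ^ 2) ^ N / (1 + κ * ‖h N z‖ ^ 2) ^ 2) := by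
    have hA : 0 < 8 * ((N : ℝ) + 1) ^ 2 * κ := by positivity
    generalize 8 * ((N : ℝ) + 1) ^ 2 * κ = A at hA ⊢
    rw [log_div (by positivity) (by positivity), log_mul (by positivity) (by positivity),
      log_pow (‖z‖ ^ 2) N, log_pow (1 + κ * ‖h N z‖ ^ 2) 2]
    push_cast
    ring
  rw [h3, exp_log (by positivity)]

/-- There are `p, q` satisfying (H1)-(H8) such that for every positive integer `N` the equation
`Δ u + p(|x|) q(e ^ u) = 4 π N δ₀` has a negative solution which is not radially symmetric about the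
origin. -/
theorem result : ∃ p q : ℝ → ℝ, Hyp (fun t => exp (2 * t) * p (exp t)) (fun v => q (exp v)) ∧
    ∀ N : ℕ, 1 ≤ N → ∃ u : ℂ → ℝ, IsSol N p q u ∧ (∀ z, z ≠ 0 → u z < 0) ∧
      ∃ z₁ z₂ : ℂ, z₁ ≠ 0 ∧ ‖z₁‖ = ‖z₂‖ ∧ u z₁ ≠ u z₂ := by
  refine ⟨fun _ => 1, fun s => g (log s), ?_, fun N hN => ?_⟩
  · simp only [mul_one, log_exp]
    exact hyp
  obtain ⟨κ, hκ, hle⟩ := exists_kappa N
  have hsmall : ∀ z : ℂ, z ≠ 0 → sol N κ z ≤ -1 := by
    intro z hz
    have h1 := exp_sol N hκ hz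
    have h2 : exp (sol N κ z) ≤ 1 / 4 := by
      rw [h1, div_le_iff₀ (by have := P_pos N hκ z; positivity)]
      exact hle z
    have h3 : (1 : ℝ) / 4 ≤ exp (-1) := by
      rw [exp_neg, one_div]
      exact inv_anti₀ (exp_pos _) (by have := exp_one_lt_d9; linarith)
    exact exp_le_exp.1 (h2.trans h3)
  have hcv : Continuous (v N κ) := (contDiff_v N hκ).continuous
  have hrhs : ∀ z : ℂ, z ≠ 0 → g (log (exp (sol N κ z))) = - Δ (v N κ) z := by
    intro z hz
    rw [log_exp, g_of_le (hsmall z hz), exp_sol N hκ hz, lap_v N hκ, neg_neg]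
  have hne : ∀ᵐ x : ℂ, x ≠ 0 := by
    rw [ae_iff]
    simp
  have hΔc : Continuous (Δ (v N κ)) := (contDiff_laplacian (contDiff_v N hκ)).continuous
  refine ⟨sol N κ, ⟨?_, ?_, ?_, ?_⟩, fun z hz => lt_of_le_of_lt (hsmall z hz) (by norm_num), ?_⟩
  · have h1 : LocallyIntegrable fun z : ℂ => (N : ℝ) • log (‖z‖ ^ 2) :=
      locallyIntegrable_log.smul (N : ℝ)
    exact h1.add hcv.locallyIntegrable
  · have h1 : ContDiffOn ℝ (⊤ : ℕ∞) (fun z : ℂ => (N : ℝ) * log (‖z‖ ^ 2)) {0}ᶜ := by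
      refine contDiffOn_const.mul ?_
      refine ContDiffOn.log (contDiff_norm_sq ℝ).contDiffOn fun z hz => ?_
      have : z ≠ 0 := hz
      positivity
    exact h1.add (contDiff_v N hκ).contDiffOn
  · refine (hΔc.neg.locallyIntegrable).congr ?_
    filter_upwards [hne] with z hz
    simp only [one_mul, Pi.neg_apply]
    exact (hrhs z hz).symm
  · intro φ hφ hc
    have hφ2 : ContDiff ℝ 2 φ := (contDiff_infty.1 hφ 2)
    have hlapc : Continuous (Δ φ) := (contDiff_laplacian hφ).continuous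
    have hlaps : HasCompactSupport (Δ φ) := by
      refine HasCompactSupport.of_support_subset_isCompact hc (fun x hx => ?_)
      by_contra hcon
      apply hx
      have h1 : φ =ᶠ[𝓝 x] fun _ => 0 := notMem_tsupport_iff_eventuallyEq.1 hcon
      rw [laplacian_congr_nhds h1 |>.self_of_nhds]
      exact congrFun laplacian_const x
    have e1 : ∫ x, sol N κ x * Δ φ x
        = N * (∫ x, log (‖x‖ ^ 2) * Δ φ x) + (∫ x, v N κ x * Δ φ x) := by
      rw [← integral_const_mul, ← integral_add]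
      · refine integral_congr_ae (Eventually.of_forall fun x => ?_)
        simp only [sol]
        ring
      · have h1 : Integrable fun x : ℂ => Δ φ x • log (‖x‖ ^ 2) :=
          locallyIntegrable_log.integrable_smul_left_of_hasCompactSupport hlapc hlaps
        refine (h1.const_mul (N : ℝ)).congr (Eventually.of_forall fun x => ?_)
        simp only [smul_eq_mul]
        ring
      · exact (hcv.mul hlapc).integrable_of_hasCompactSupport hlaps.mul_left
    have e2 : ∫ x, 1 * g (log (exp (sol N κ x))) * φ x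
        = - ∫ x, Δ (v N κ) x * φ x := by
      rw [← integral_neg]
      refine integral_congr_ae ?_
      filter_upwards [hne] with z hz
      simp only [one_mul]
      rw [hrhs z hz]
      ring
    rw [e1, e2, green volume (contDiff_infty.1 (contDiff_v N hκ) 2) hφ2 hc, log_delta hφ hc]
    ring
  · -- not radial
    refine ⟨1, Complex.exp (π / (N + 1 : ℕ) * Complex.I), one_ne_zero, ?_, ?_⟩
    · have h1 : (π : ℂ) / (N + 1 : ℕ) * Complex.I = ((π / (N + 1 : ℕ) : ℝ) : ℂ) * Complex.I := by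
        push_cast
        ring
      rw [h1, Complex.norm_exp_ofReal_mul_I, norm_one]
    · have h1 : (π : ℂ) / (N + 1 : ℕ) * Complex.I = ((π / (N + 1 : ℕ) : ℝ) : ℂ) * Complex.I := by
        push_cast
        ring
      have h2 : ‖Complex.exp (π / (N + 1 : ℕ) * Complex.I)‖ = 1 := by
        rw [h1, Complex.norm_exp_ofReal_mul_I]
      have h3 : h N 1 = 0 := by
        unfold h
        simp
      have h4 : h N (Complex.exp (π / (N + 1 : ℕ) * Complex.I)) = -2 := by
        unfold h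
        rw [← Complex.exp_nat_mul]
        have h5 : ((N + 1 : ℕ) : ℂ) * (π / (N + 1 : ℕ) * Complex.I) = π * Complex.I := by
          have : ((N + 1 : ℕ) : ℂ) ≠ 0 := by exact_mod_cast Nat.succ_ne_zero N
          field_simp
        rw [h5, Complex.exp_pi_mul_I]
        norm_num
      unfold sol v
      rw [h2, h3, h4, norm_one, norm_zero]
      have h6 : ‖(-2 : ℂ)‖ = 2 := by simp
      rw [h6]
      have h7 : 0 < log (1 + κ * 2 ^ 2) := log_pos (by nlinarith)
      simp only [ne_eq, OfNat.ofNat_ne_zero, not_false_eq_true, zero_pow, mul_zero, add_zero,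
        log_one]
      intro h8
      linarith

end Pool.Agent.Results.MP_ad2fa1_an.NonRadial
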